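import Mathlib
import Pool.Agent.V1119.Flood

/-!
The coset-counting recurrence algorithm in the free group of rank two ends within `[F_2 : H]`
steps, for every subgroup `H` of finite index.
-/

namespace Pool.Agent.Results.MP_f02465_al.StepsLeIndex

open Pool.Agent.V1119

/-- The letters `a, b, a⁻¹, b⁻¹` of the free group of rank two. -/
def letters : Set (FreeGroup (Fin 2)) :=
  {FreeGroup.of 0, FreeGroup.of 1, (FreeGroup.of 0)⁻¹, (FreeGroup.of 1)⁻¹}

/-- A directed edge of the coset graph: the pair `(c, h)` of a left coset `c` and a letter `h`. -/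
abbrev Edge (H : Subgroup (FreeGroup (Fin 2))) : Type := (FreeGroup (Fin 2) ⧸ H) × letters

/-- The start of the edge `(c, h)` is `c`. -/
def start {H : Subgroup (FreeGroup (Fin 2))} (e : Edge H) : FreeGroup (Fin 2) ⧸ H := e.1

/-- The end of the edge `(c, h)` is `h c`. -/
def finish {H : Subgroup (FreeGroup (Fin 2))} (e : Edge H) : FreeGroup (Fin 2) ⧸ H :=
  (e.2 : FreeGroup (Fin 2)) • e.1

/-- The set `E i` of the edges highlighted at step `i`: nothing at step `0`, all edges leaving `yH`
at step `1`, and at step `i+2` the edges leaving some coset at which an edge of `E (i+1)` ends,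
except those parallel to the reverse of an edge of `E (i+1)`. -/
def E (H : Subgroup (FreeGroup (Fin 2))) (y : FreeGroup (Fin 2)) : ℕ → Set (Edge H)
  | 0 => ∅
  | 1 => {e | start e = (QuotientGroup.mk y : FreeGroup (Fin 2) ⧸ H)}
  | (i+2) => {e | (∃ f ∈ E H y (i+1), finish f = start e) ∧
      ¬ ∃ f ∈ E H y (i+1), start f = finish e ∧ finish f = start e}

theorem letters_symm : ∀ h ∈ letters, h⁻¹ ∈ letters := by
  intro h hh
  simp only [letters, Set.mem_insert_iff, Set.mem_singleton_iff] at hh ⊢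
  rcases hh with rfl | rfl | rfl | rfl <;> simp

theorem letters_ne : letters.Nonempty := ⟨FreeGroup.of 0, by simp [letters]⟩

/-- The layers of the breadth first search. -/
def L (H : Subgroup (FreeGroup (Fin 2))) (y : FreeGroup (Fin 2)) (i : ℕ) :
    Set (FreeGroup (Fin 2) ⧸ H) :=
  Flood.S letters (QuotientGroup.mk y : FreeGroup (Fin 2) ⧸ H) (i+1) \
      Flood.S letters (QuotientGroup.mk y : FreeGroup (Fin 2) ⧸ H) (i-1)

theorem L_rec (H : Subgroup (FreeGroup (Fin 2))) (y : FreeGroup (Fin 2)) (n : ℕ) :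
    Flood.nb letters (L H y (n+1)) \ L H y n = L H y (n+2) :=
  Flood.layer_rec letters letters_symm _ n

theorem E_eq (H : Subgroup (FreeGroup (Fin 2))) (y : FreeGroup (Fin 2)) (i : ℕ) :
    E H y (i+1) = {e | start e ∈ L H y i ∧ finish e ∈ L H y (i+1)} := by
  induction i with
  | zero =>
    ext e
    simp only [E, Set.mem_ofPred_eq, L]
    constructor
    · intro h
      refine ⟨by simp [h, Flood.S], ?_⟩
      simp only [Nat.sub_self, Flood.S, Set.sdiff_empty]
      exact ⟨e.2, e.2.2, _, rfl, by rw [← h]; rfl⟩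
    · rintro ⟨h, -⟩
      simpa [Flood.S] using h
  | succ i ih =>
    ext e
    rw [E, ih]
    simp only [Set.mem_ofPred_eq]
    constructor
    · rintro ⟨⟨f, ⟨hf1, hf2⟩, hfe⟩, hne⟩
      have hs : start e ∈ L H y (i+1) := by rw [← hfe]; exact hf2
      refine ⟨hs, ?_⟩
      rw [← L_rec]
      refine ⟨⟨e.2, e.2.2, start e, hs, rfl⟩, fun hfin => hne ?_⟩
      refine ⟨(finish e, ⟨(e.2 : FreeGroup (Fin 2))⁻¹, letters_symm _ e.2.2⟩), ?_⟩
      have hfin2 : finish (H := H) (finish e, ⟨(e.2 : FreeGroup (Fin 2))⁻¹,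
          letters_symm _ e.2.2⟩) = start e := by
        simp [finish, start]
      exact ⟨⟨hfin, by rw [hfin2]; exact hs⟩, rfl, hfin2⟩
    · rintro ⟨hs, hf⟩
      rw [← L_rec] at hf
      refine ⟨?_, ?_⟩
      · -- a predecessor
        cases i with
        | zero =>
          have hs' : start e ∈ Flood.nb letters ({(QuotientGroup.mk y : FreeGroup (Fin 2) ⧸ H)} :
            Set (FreeGroup (Fin 2) ⧸ H)) := hs.1
          obtain ⟨h, hh, c, hc, hcs⟩ := hs'
          refine ⟨(c, ⟨h, hh⟩), ⟨?_, ?_⟩, hcs.symm⟩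
          · rw [show c = _ from hc]; simp [L, start, Flood.S]
          · rw [show finish (H := H) (c, ⟨h, hh⟩) = start e from hcs.symm]; exact hs
        | succ i =>
          rw [← L_rec] at hs
          obtain ⟨⟨h, hh, c, hc, hcs⟩, hs2⟩ := hs
          refine ⟨(c, ⟨h, hh⟩), ⟨hc, ?_⟩, hcs.symm⟩
          rw [show finish (H := H) (c, ⟨h, hh⟩) = start e from hcs.symm, ← L_rec]
          exact ⟨⟨h, hh, c, hc, hcs⟩, hs2⟩
      · rintro ⟨f, ⟨hf1, hf2⟩, hf3, hf4⟩
        exact hf.2 (hf3 ▸ hf1)

/-- For every subgroup `H` of finite index in `F_2` (with or without elements of odd length) and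
every `y`, every nonempty `E i` has `i ≤ [F_2 : H]`: the algorithm ends within `[F_2 : H]`
steps. -/
theorem result : ∀ H : Subgroup (FreeGroup (Fin 2)), H.FiniteIndex →
    ∀ y : FreeGroup (Fin 2), ∀ i : ℕ, (E H y i).Nonempty → i ≤ H.index := by
  intro H hH y i hne
  have : Finite (FreeGroup (Fin 2) ⧸ H) := Subgroup.finite_quotient_of_finiteIndex
  cases i with
  | zero => exact absurd hne (by simp [E])
  | succ n =>
    rw [E_eq] at hne
    obtain ⟨e, -, he⟩ := hne
    have h1 := Flood.layer_le_card letters letters_symm letters_ne _ n ⟨_, he⟩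
    have h2 : Nat.card (FreeGroup (Fin 2) ⧸ H) = H.index := rfl
    omega

end Pool.Agent.Results.MP_f02465_al.StepsLeIndex
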